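import Pool.Agent.helper97.IRO.Spec

set_option autoImplicit false

/-! # Row iro:FN5 -/

open MeasureTheory Pool.Agent.LOF

namespace Pool.Agent.IRO

lemma FN5_pos_meas (g : F) : MeasurableSet {ε : DD → Bool | Pos ε g.1} := by
  have h : {ε : DD → Bool | Pos ε g.1} = (fun ε => (Phi ε).1 (1, g)) ⁻¹' {true} := by
    ext ε
    rw [Set.mem_ofPred_eq, Set.mem_preimage, Set.mem_singleton_iff, Phi_apply, inv_one, one_mul]
  rw [h]
  exact ((measurable_pi_apply (1, g)).comp (measurable_subtype_coe.comp Phi_measurable))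
    (measurableSet_singleton true)

lemma FN5_ext_meas (s : Bool) : Measurable (ext s) := by
  rw [measurable_pi_iff]
  intro y
  by_cases h : y.1 < 1
  · have : (fun ε : D → Bool => ext s ε y) = fun ε => ε ⟨y.1, y.2.1, y.2.2.1, h⟩ := by
      funext ε
      unfold ext
      rw [dif_pos h]
    rw [this]
    exact measurable_pi_apply _
  · have : (fun ε : D → Bool => ext s ε y) = fun ε => s := by
      funext ε
      unfold ext
      rw [dif_neg h]
    rw [this]
    exact measurable_const

lemma FN5_PosQ_meas (q : Q) (g : F) : MeasurableSet {ε : D → Bool | PosQ q ε g} := by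
  rcases q with s | o
  · exact FN5_ext_meas s (FN5_pos_meas g)
  · show MeasurableSet {ε : D → Bool | o.1 (1, Abelianization.of g) = true ∨
      (Abelianization.of g = 1 ∧ Pos (ext true ε) g.1)}
    refine MeasurableSet.union (MeasurableSet.const _) ?_
    exact (MeasurableSet.const _).inter (FN5_ext_meas true (FN5_pos_meas g))

lemma FN5_Ord_meas (q : Q) : Measurable (Ord q) := by
  have h : Measurable (fun ε : D → Bool => (Ord q ε).1) := by
    rw [measurable_pi_iff]
    intro p
    refine measurable_to_bool ?_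
    have e : (fun ε : D → Bool => (Ord q ε).1 p) ⁻¹' {true} = {ε | PosQ q ε (p.1⁻¹ * p.2)} := by
      ext ε
      rw [Set.mem_preimage, Set.mem_singleton_iff, Set.mem_ofPred_eq]
      have := Pr_iff (Ord q ε) p.1 p.2
      rw [Prod.mk.eta] at this
      rw [this]
      exact Pr_ofCone _ _ _
    rw [e]
    exact FN5_PosQ_meas q _
  exact h.subtype_mk

lemma FN5_pull_meas : Measurable pull := by
  have h : Measurable (fun r : LO F => (pull r).1) := by
    rw [measurable_pi_iff]
    intro p
    exact (measurable_pi_apply (mirF p.1, mirF p.2)).comp measurable_subtype_coe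
  exact h.subtype_mk

lemma FN5_conj_meas (g : F) : Measurable (conj g : LO F → LO F) := by
  have h : Measurable (fun r : LO F => (conj g r).1) := by
    rw [measurable_pi_iff]
    intro p
    exact (measurable_pi_apply (p.1 * g, p.2 * g)).comp measurable_subtype_coe
  exact h.subtype_mk

lemma FN5_mirF (g : F) : mirF (mirF g) = g := Subtype.ext (mir_mir g.1)

lemma FN5_pull_pull (r : LO F) : pull (pull r) = r := by
  refine Pr_inj fun g => ?_
  rw [Pr_pull, Pr_pull, FN5_mirF]

lemma FN5_pull_conj (g : F) (r : LO F) : pull (conj g r) = conj (mirF g) (pull r) := by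
  refine Pr_inj fun h => ?_
  rw [Pr_pull, Pr_conj, Pr_conj, Pr_pull, map_mul, map_mul, map_inv, FN5_mirF]

lemma FN5_conj_inv (g : F) (r : LO F) : conj g⁻¹ (conj g r) = r := by
  refine Pr_inj fun h => ?_
  rw [Pr_conj, Pr_conj]
  have : g⁻¹ * (g⁻¹⁻¹ * h * g⁻¹) * g = h := by group
  rw [this]

lemma FN5_RT_conj (hME2 : ME2_stmt) (g : F) (r : LO F) (h : RT r) : RT (conj g r) := by
  obtain ⟨-, -, -, hAB, hC⟩ := hME2
  obtain ⟨h1, h2, h3⟩ := h
  have g0 : g.1 0 = 0 := F.out g.2 (by simp)
  have g0' : (g⁻¹ : F).1 0 = 0 := F.out (g⁻¹ : F).2 (by simp)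
  have g1' : (g⁻¹ : F).1 1 = 1 := F.out (g⁻¹ : F).2 (by simp)
  have hgg : ∀ x : ℝ, g.1 ((g⁻¹ : F).1 x) = x := fun x => g.1.apply_symm_apply x
  have hd : ∀ x : ℝ, IsDyadic x → IsDyadic ((g⁻¹ : F).1 x) := fun x hx => F.dyadic (g⁻¹ : F).2 hx
  have hpos : ∀ x : ℝ, 0 < x → 0 < (g⁻¹ : F).1 x := by
    intro x hx
    have := (g⁻¹ : F).1.strictMono hx
    rwa [g0'] at this
  have hlt : ∀ x : ℝ, x < 1 → (g⁻¹ : F).1 x < 1 := by
    intro x hx
    have := (g⁻¹ : F).1.strictMono hx
    rwa [g1'] at this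
  refine ⟨(hC g r).2 h1, ?_, ?_⟩
  · rintro a b ⟨ha, hb, ha0, hab, hb1⟩ hA
    refine h2 ((g⁻¹ : F).1 a) ((g⁻¹ : F).1 b) ⟨hd a ha, hd b hb, hpos a ha0,
      (g⁻¹ : F).1.strictMono hab, hlt b hb1⟩ ?_
    rw [← (hAB g r _ _).1, hgg, hgg]
    exact hA
  · rcases h3 with h3 | h3
    · left
      intro b hb hb0 hb1 hA
      refine h3 ((g⁻¹ : F).1 b) (hd b hb) (hpos b hb0) (hlt b hb1) ?_
      rw [← (hAB g r _ _).1, hgg, g0]
      exact hA
    · right
      intro b hb hb0 hb1 hA
      refine h3 ((g⁻¹ : F).1 b) (hd b hb) (hpos b hb0) (hlt b hb1) ?_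
      rw [← (hAB g r _ _).2, hgg, g0]
      exact hA

lemma FN5_RT_inv (hME2 : ME2_stmt) (g : F) : conj g ⁻¹' {r : LO F | RT r} = {r | RT r} := by
  ext r
  rw [Set.mem_preimage, Set.mem_ofPred_eq, Set.mem_ofPred_eq]
  constructor
  · intro h
    have := FN5_RT_conj hME2 g⁻¹ _ h
    rwa [FN5_conj_inv] at this
  · exact FN5_RT_conj hME2 g r

lemma FN5_all_meas (W : ℝ → Prop) (p : LO F → ℝ → Prop) (hW : ∀ x, W x → IsDyadic x)
    (hp : ∀ x, MeasurableSet {r | p r x}) : MeasurableSet {r | ∀ x, W x → ¬ p r x} := by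
  have e : {r | ∀ x, W x → ¬ p r x} = ⋂ x : {x : ℝ // IsDyadic x}, {r | W x.1 → ¬ p r x.1} := by
    ext r
    rw [Set.mem_iInter, Set.mem_ofPred_eq]
    exact ⟨fun h x => h x.1, fun h x hx => h ⟨x, hW x hx⟩ hx⟩
  rw [e]
  refine MeasurableSet.iInter fun x => ?_
  by_cases hx : W x.1
  · have : {r | W x.1 → ¬ p r x.1} = {r | p r x.1}ᶜ := by
      ext r
      simp [hx]
    rw [this]
    exact (hp x.1).compl
  · have : {r | W x.1 → ¬ p r x.1} = Set.univ := by
      ext r
      simp [hx]
    rw [this]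
    exact MeasurableSet.univ

lemma FN5_RT_meas (hME2 : ME2_stmt) : MeasurableSet {r : LO F | RT r} := by
  obtain ⟨hA, hB, hC, -, -⟩ := hME2
  have m1 : MeasurableSet {r : LO F | ∀ a b, Dyi a b → ¬ Aty (Pr r) a b} := by
    have e : {r : LO F | ∀ a b, Dyi a b → ¬ Aty (Pr r) a b}
        = {r | ∀ a, IsDyadic a → ¬ ¬ ∀ b, Dyi a b → ¬ Aty (Pr r) a b} := by
      ext r
      constructor
      · intro h a _ h'
        exact h' (h a)
      · intro h a b hab
        exact (not_not.1 (h a hab.1)) b hab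
    rw [e]
    refine FN5_all_meas _ (fun r a => ¬ ∀ b, Dyi a b → ¬ Aty (Pr r) a b) (fun x hx => hx) fun a => ?_
    exact (FN5_all_meas (fun b => Dyi a b) (fun r b => Aty (Pr r) a b) (fun x hx => hx.2.1)
      (fun b => hA a b)).compl
  have m2 : MeasurableSet {r : LO F | ∀ b, IsDyadic b → 0 < b → b < 1 → ¬ Aty (Pr r) 0 b} := by
    have := FN5_all_meas (fun b => IsDyadic b ∧ 0 < b ∧ b < 1) (fun r b => Aty (Pr r) 0 b)
      (fun x hx => hx.1) (fun b => hA 0 b)
    simpa only [and_imp] using this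
  have m3 : MeasurableSet {r : LO F | ∀ b, IsDyadic b → 0 < b → b < 1 → ¬ Bty (Pr r) 0 b} := by
    have := FN5_all_meas (fun b => IsDyadic b ∧ 0 < b ∧ b < 1) (fun r b => Bty (Pr r) 0 b)
      (fun x hx => hx.1) (fun b => hB 0 b)
    simpa only [and_imp] using this
  exact hC.inter (m1.inter (m2.union m3))

lemma FN5_law_true (q : Q) (p : unitInterval) : law true q p = (bernP p).map (Ord q) := by
  unfold law
  simp only [if_true]

lemma FN5_law_false (q : Q) (p : unitInterval) (A : Set (LO F)) (hA : MeasurableSet A) :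
    law false q p A = law true q p (pull ⁻¹' A) := by
  have e : law false q p = (bernP p).map (fun ε => pull (Ord q ε)) := by
    unfold law
    simp only [Bool.false_eq_true, if_false]
  rw [e, FN5_law_true, Measure.map_apply (f := fun ε => pull (Ord q ε)) (FN5_pull_meas.comp (FN5_Ord_meas q)) hA,
    Measure.map_apply (FN5_Ord_meas q) (FN5_pull_meas hA)]
  rfl

lemma FN5_law_univ (t : Bool) (q : Q) (p : unitInterval) : law t q p Set.univ = 1 := by
  have h : law true q p Set.univ = 1 := by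
    rw [FN5_law_true, Measure.map_apply (FN5_Ord_meas q) MeasurableSet.univ, Set.preimage_univ, measure_univ]
  cases t
  · rw [FN5_law_false q p _ MeasurableSet.univ, Set.preimage_univ, h]
  · exact h

theorem FN5 (hME2 : ME2_stmt) (hME5 : ME5_stmt) (hT8 : T8_stmt) (hFN4 : FN4_stmt) : FN5_stmt := by
  intro ν _ hν
  have hS := FN5_RT_meas hME2
  set S : Set (LO F) := {r : LO F | RT r} with hSdef
  -- the two parts
  have inv1 : Inv (ν.restrict S) := by
    intro g
    have := Measure.restrict_map (μ := ν) (FN5_conj_meas g) hS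
    rw [hν g, hSdef, FN5_RT_inv hME2 g] at this
    exact this.symm
  have inv2 : Inv (ν.restrict Sᶜ) := by
    intro g
    have := Measure.restrict_map (μ := ν) (FN5_conj_meas g) hS.compl
    rw [hν g, Set.preimage_compl, hSdef, FN5_RT_inv hME2 g] at this
    exact this.symm
  have inv2' : Inv ((ν.restrict Sᶜ).map pull) := by
    intro g
    rw [Measure.map_map (FN5_conj_meas g) FN5_pull_meas]
    have e : (conj g ∘ pull : LO F → LO F) = pull ∘ conj (mirF g) := by
      funext r
      show conj g (pull r) = pull (conj (mirF g) r)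
      rw [FN5_pull_conj, FN5_mirF]
    rw [e, ← Measure.map_map FN5_pull_meas (FN5_conj_meas _), inv2 (mirF g)]
  obtain ⟨m₁, hm₁, h1⟩ := hFN4 (ν.restrict S) inv1 (by
    rw [ae_restrict_iff' hS]
    exact Filter.Eventually.of_forall fun r hr => hT8 r hr)
  obtain ⟨m₂, hm₂, h2⟩ := hFN4 ((ν.restrict Sᶜ).map pull) inv2' (by
    have : ∀ᵐ r ∂((ν.restrict Sᶜ).map pull), RT r := by
      rw [ae_map_iff FN5_pull_meas.aemeasurable hS, ae_restrict_iff' hS.compl]
      filter_upwards [hME5 ν hν] with r hr hr2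
      exact hr.resolve_left hr2
    filter_upwards [this] with r hr
    exact hT8 r hr)
  have em : ∀ t : Bool, MeasurableEmbedding (Prod.mk t : Q × unitInterval → Bool × Q × unitInterval) :=
    fun t => (MeasurableEmbedding.id (α := Q × unitInterval)).prodMk_left t
  have key : ∀ A, MeasurableSet A → ν A = ∫⁻ w, law w.1 w.2.1 w.2.2 A
      ∂(m₁.map (Prod.mk true) + m₂.map (Prod.mk false)) := by
    intro A hA
    rw [lintegral_add_measure, (em true).lintegral_map, (em false).lintegral_map]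
    have e1 : ∫⁻ w : Q × unitInterval, law (true, w).1 (true, w).2.1 (true, w).2.2 A ∂m₁
        = (ν.restrict S) A := (h1 A hA).symm
    have e2 : ∫⁻ w : Q × unitInterval, law (false, w).1 (false, w).2.1 (false, w).2.2 A ∂m₂
        = (ν.restrict Sᶜ) A := by
      have e3 := h2 (pull ⁻¹' A) (FN5_pull_meas hA)
      rw [Measure.map_apply FN5_pull_meas (FN5_pull_meas hA)] at e3
      have e4 : pull ⁻¹' (pull ⁻¹' A) = A := by
        ext r
        rw [Set.mem_preimage, Set.mem_preimage, FN5_pull_pull]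
      rw [e4] at e3
      rw [e3]
      exact lintegral_congr fun w => FN5_law_false w.1 w.2 A hA
    rw [e1, e2, ← Measure.add_apply, Measure.restrict_add_restrict_compl hS]
  refine ⟨m₁.map (Prod.mk true) + m₂.map (Prod.mk false), ⟨?_⟩, key⟩
  have := key Set.univ MeasurableSet.univ
  simp only [FN5_law_univ] at this
  rw [lintegral_one, measure_univ] at this
  exact this.symm

end Pool.Agent.IRO
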